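import Pool.Agent.Helper51.LC.GeoA

/-!
# Project LC, piece LC-12b: geometry of the omitted set near the maximiser
-/

set_option autoImplicit false

namespace Pool.Agent.Helper51.LC

open Complex Metric Set Filter Topology

private theorem exp_re (t : ℝ) : (Complex.exp (t * Complex.I)).re = Real.cos t := by
  rw [Complex.exp_ofReal_mul_I_re]

private theorem exp_im (t : ℝ) : (Complex.exp (t * Complex.I)).im = Real.sin t := by
  rw [Complex.exp_ofReal_mul_I_im]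

private theorem sq_norm'' (z : ℂ) : ‖z‖ ^ 2 = z.re ^ 2 + z.im ^ 2 := by
  rw [Complex.sq_norm, Complex.normSq_apply]
  ring

/-- Every unit vector has an angle in `[0, 2 pi]` from the direction `x`. -/
private theorem exists_angle (x : ℝ) (e : ℂ) (he : ‖e‖ = 1) :
    ∃ t ∈ Icc (0 : ℝ) (2 * Real.pi), e = Complex.exp (((x + t : ℝ) : ℂ) * Complex.I) := by
  obtain ⟨θ, hθ⟩ := (Complex.norm_eq_one_iff e).1 he
  refine ⟨toIcoMod Real.two_pi_pos 0 (θ - x), ?_, ?_⟩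
  · have h := toIcoMod_mem_Ico Real.two_pi_pos 0 (θ - x)
    rw [zero_add] at h
    exact ⟨h.1, h.2.le⟩
  · rw [← hθ]
    have h := toIcoMod_add_toIcoDiv_zsmul Real.two_pi_pos 0 (θ - x)
    set t := toIcoMod Real.two_pi_pos 0 (θ - x)
    set k := toIcoDiv Real.two_pi_pos 0 (θ - x)
    have h1 : θ = (x + t) + k * (2 * Real.pi) := by
      rw [zsmul_eq_mul] at h
      linarith
    have h2 : (θ : ℂ) * Complex.I = ((x + t : ℝ) : ℂ) * Complex.I
        + k * (2 * Real.pi * Complex.I) := by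
      rw [h1]
      push_cast
      ring
    rw [h2, Complex.exp_add, Complex.exp_int_mul_two_pi_mul_I, mul_one]

/-- The final estimates. -/
private theorem final {A P Q y m d : ℝ} (hA : 0 ≤ A) (hA' : A ≤ 0.0254) (hd : 0.9962 ≤ d)
    (hd1 : d ≤ 1) (hm : -0.15 ≤ m) (hm8 : m < 0.08) (hy : -0.0254 ≤ y) (hy' : y ≤ 0.0254)
    (hy15 : -0.15 * y ≤ A * m) (hPQ : P ^ 2 + Q ^ 2 = 2 * A ^ 2 + 4 * d * (y * m) + 2 * d ^ 2) :
    (|y + d * m| ≤ 0.15 ∧ P + Q ≤ 2.00065) ∨ (|y + d * m| ≤ 0.1054 ∧ P + Q ≤ 2.0048) := by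
  have hd0 : 0 < d := by linarith
  have hAA : A ^ 2 ≤ 0.0254 ^ 2 := pow_le_pow_left₀ hA hA' 2
  have hdd : d ^ 2 ≤ d := by
    have : d * d ≤ 1 * d := mul_le_mul_of_nonneg_right hd1 hd0.le
    linarith [sq d]
  have hsum : d * (P + Q) ≤ A ^ 2 + 2 * (d * (y * m)) + 2 * d ^ 2 := by
    have h1 := sq_nonneg (P - d)
    have h2 := sq_nonneg (Q - d)
    have h3 : (P - d) ^ 2 + (Q - d) ^ 2 = (P ^ 2 + Q ^ 2) - 2 * (d * (P + Q)) + 2 * d ^ 2 := by
      ring
    have h4 : 4 * d * (y * m) = 4 * (d * (y * m)) := by ring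
    rw [hPQ, h4] at h3
    linarith
  rcases lt_or_ge m 0 with hm0 | hm0
  · left
    have h1 : A * m ≤ 0 := mul_nonpos_of_nonneg_of_nonpos hA hm0.le
    have hy0 : 0 ≤ y := by linarith
    have h2 : d * m ≤ 0 := mul_nonpos_of_nonneg_of_nonpos hd0.le hm0.le
    have h3 : 0 ≤ (1 - d) * (-m) := mul_nonneg (by linarith) (by linarith)
    have h4 : (1 - d) * (-m) = d * m - m := by ring
    constructor
    · rw [abs_le]
      constructor <;> linarith
    · have h5 : d * (y * m) ≤ 0 :=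
        mul_nonpos_of_nonneg_of_nonpos hd0.le (mul_nonpos_of_nonneg_of_nonpos hy0 hm0.le)
      have h6 : d * (P + Q) ≤ d * 2.00065 := by norm_num at hAA; linarith
      exact le_of_mul_le_mul_left h6 hd0
  · right
    have h2 : 0 ≤ d * m := mul_nonneg hd0.le hm0
    have h3 : 0 ≤ (1 - d) * m := mul_nonneg (by linarith) hm0
    have h4 : (1 - d) * m = m - d * m := by ring
    constructor
    · rw [abs_le]
      constructor <;> linarith
    · have h5 : y * m ≤ 0.0254 * 0.08 := mul_le_mul hy' hm8.le hm0 (by norm_num)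
      have h6 : d * (y * m) ≤ d * (0.0254 * 0.08) := mul_le_mul_of_nonneg_left h5 hd0.le
      have h7 : d * (P + Q) ≤ d * 2.0048 := by norm_num at hAA; linarith
      exact le_of_mul_le_mul_left h7 hd0

/-- LC-12b -/
theorem geo {E : Set ℂ} (hE : IsClosed E) (hne : E.Nonempty) (hcov : ∀ w, infDist w E ≤ 1)
    (h0 : 0.9962 ≤ infDist 0 E) :
    (∃ p ∈ E, ∃ q ∈ E, ∃ ξ : ℂ, ‖ξ‖ = 1 ∧ (p * ξ).im = (q * ξ).im ∧
      0 < (p * ξ).re ∧ (q * ξ).re < 0 ∧
      ((|(p * ξ).im| ≤ 0.15 ∧ ‖p‖ + ‖q‖ ≤ 2.00065) ∨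
       (|(p * ξ).im| ≤ 0.1054 ∧ ‖p‖ + ‖q‖ ≤ 2.0048))) ∨
    (∃ (a : ℂ) (d : ℝ), ‖a‖ ≤ 0.0254 ∧ 0.99 ≤ d ∧ d ≤ 1 ∧
      ∀ x : ℝ, ∃ t : ℝ, |t - x| ≤ Real.arccos 0.08 ∧
        a + d * Complex.exp (t * Complex.I) ∈ E) := by
  obtain ⟨a, d, ha, -, hd, hd1, hcl⟩ := geo_a hE hne hcov h0
  by_cases hall : ∀ x : ℝ, ∃ t : ℝ, |t - x| ≤ Real.arccos 0.08 ∧
        a + d * Complex.exp (t * Complex.I) ∈ E
  · exact Or.inr ⟨a, d, ha, by linarith, hd1, hall⟩
  left
  push Not at hall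
  obtain ⟨x, hx⟩ := hall
  have hac : 0 ≤ Real.arccos 0.08 := Real.arccos_nonneg _
  -- the angles, measured from `x`
  set T : Set ℝ := {t | t ∈ Icc (0 : ℝ) (2 * Real.pi) ∧
    a + d * Complex.exp (((x + t : ℝ) : ℂ) * Complex.I) ∈ E} with hT
  have hTc : IsCompact T := by
    refine isCompact_Icc.inter_right ?_
    refine hE.preimage ?_
    fun_prop
  have hTn : T.Nonempty := by
    obtain ⟨e, he, heE, -⟩ := hcl 1 norm_one
    obtain ⟨t, ht, hte⟩ := exists_angle x e he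
    exact ⟨t, ht, by rw [← hte]; exact heE⟩
  obtain ⟨τ₂, hτ₂, hmin⟩ := hTc.exists_isLeast hTn
  obtain ⟨τ₁, hτ₁, hmx⟩ := hTc.exists_isGreatest hTn
  have hle : τ₂ ≤ τ₁ := hmin hτ₁
  have hperiod : ∀ s : ℝ, Complex.exp (((s - 2 * Real.pi : ℝ) : ℂ) * Complex.I)
      = Complex.exp ((s : ℂ) * Complex.I) := by
    intro s
    have : ((s - 2 * Real.pi : ℝ) : ℂ) * Complex.I
        = (s : ℂ) * Complex.I - 2 * Real.pi * Complex.I := by
      push_cast; ring
    rw [this, Complex.exp_sub, Complex.exp_two_pi_mul_I, div_one]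
  have hτ₂a : Real.arccos 0.08 < τ₂ := by
    by_contra hcon
    push Not at hcon
    refine hx (x + τ₂) ?_ hτ₂.2
    rw [add_sub_cancel_left, abs_of_nonneg hτ₂.1.1]
    exact hcon
  have hτ₁a : τ₁ < 2 * Real.pi - Real.arccos 0.08 := by
    by_contra hcon
    push Not at hcon
    refine hx (x + τ₁ - 2 * Real.pi) ?_ ?_
    · have h1 := hτ₁.1.2
      rw [abs_le]
      constructor <;> linarith
    · rw [hperiod]
      exact hτ₁.2
  -- the free arc is centred at `μ` and has half length `γ`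
  set γ := Real.pi - (τ₁ - τ₂) / 2 with hγ
  set μ := x + (τ₁ + τ₂) / 2 - Real.pi with hμ
  have hγπ : γ ≤ Real.pi := by rw [hγ]; linarith
  have hγa : Real.arccos 0.08 < γ := by rw [hγ]; linarith
  have hγ0 : 0 ≤ γ := by linarith
  set m := Real.cos γ with hm
  set σ := Real.sin γ with hσ
  have hσm : σ ^ 2 + m ^ 2 = 1 := by
    rw [hσ, hm]
    exact Real.sin_sq_add_cos_sq γ
  have hσ0 : 0 ≤ σ := Real.sin_nonneg_of_nonneg_of_le_pi hγ0 hγπ
  have hm8 : m < 0.08 := by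
    have h1 : Real.cos γ < Real.cos (Real.arccos 0.08) :=
      Real.cos_lt_cos_of_nonneg_of_le_pi hac hγπ hγa
    rw [Real.cos_arccos (by norm_num) (by norm_num)] at h1
    exact h1
  -- the two end points
  have hpE : a + d * Complex.exp (((μ - γ : ℝ) : ℂ) * Complex.I) ∈ E := by
    have h1 : μ - γ = (x + τ₁) - 2 * Real.pi := by rw [hμ, hγ]; ring
    rw [h1, hperiod]
    exact hτ₁.2
  have hqE : a + d * Complex.exp (((μ + γ : ℝ) : ℂ) * Complex.I) ∈ E := by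
    have h1 : μ + γ = x + τ₂ := by rw [hμ, hγ]; ring
    rw [h1]
    exact hτ₂.2
  -- the claim at the direction `μ`
  set v := Complex.exp ((μ : ℂ) * Complex.I) with hv
  have hv1 : ‖v‖ = 1 := Complex.norm_exp_ofReal_mul_I μ
  obtain ⟨e, he, heE, he1, he2⟩ := hcl v hv1
  have hem : (v * (starRingEnd ℂ) e).re ≤ m := by
    obtain ⟨t, ht, hte⟩ := exists_angle x e he
    have htT : t ∈ T := ⟨ht, by rw [← hte]; exact heE⟩
    have h1 : τ₂ ≤ t := hmin htT
    have h2 : t ≤ τ₁ := hmx htT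
    have h3 : (v * (starRingEnd ℂ) e).re = Real.cos (μ - (x + t)) := by
      rw [Complex.mul_re, Complex.conj_re, Complex.conj_im, hv, hte, exp_re, exp_im, exp_re,
        exp_im, Real.cos_sub μ (x + t)]
      ring
    have h4 : μ - (x + t) = (τ₁ + τ₂) / 2 - t - Real.pi := by rw [hμ]; ring
    rw [h3, h4, Real.cos_sub_pi, hm, hγ, Real.cos_pi_sub]
    have h5 : |(τ₁ + τ₂) / 2 - t| ≤ (τ₁ - τ₂) / 2 := by
      rw [abs_le]
      constructor <;> linarith
    have h6 : Real.cos ((τ₁ - τ₂) / 2) ≤ Real.cos |(τ₁ + τ₂) / 2 - t| :=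
      Real.cos_le_cos_of_nonneg_of_le_pi (abs_nonneg _) (by linarith) h5
    rw [Real.cos_abs] at h6
    linarith
  set y := (v * (starRingEnd ℂ) a).re with hy
  have hm15 : -0.15 ≤ m := le_trans he1 hem
  have hy15 : -0.15 * y ≤ ‖a‖ * m :=
    le_trans he2 (mul_le_mul_of_nonneg_left hem (norm_nonneg a))
  -- the rotation
  set X := Real.sin μ * a.re - Real.cos μ * a.im with hX
  have hyy : y = Real.cos μ * a.re + Real.sin μ * a.im := by
    rw [hy, Complex.mul_re, Complex.conj_re, Complex.conj_im, hv, exp_re, exp_im]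
    ring
  have hcs : Real.sin μ ^ 2 + Real.cos μ ^ 2 = 1 := Real.sin_sq_add_cos_sq μ
  have hXy : X ^ 2 + y ^ 2 = ‖a‖ ^ 2 := by
    rw [sq_norm'', hX, hyy]
    linear_combination (a.re ^ 2 + a.im ^ 2) * hcs
  have hna := norm_nonneg a
  have haa : ‖a‖ ^ 2 ≤ 0.0254 ^ 2 := pow_le_pow_left₀ hna ha 2
  have hyle : |y| ≤ 0.0254 :=
    abs_le_of_sq_le_sq (by linarith [sq_nonneg X]) (by norm_num)
  have hXle : |X| ≤ 0.0254 :=
    abs_le_of_sq_le_sq (by linarith [sq_nonneg y]) (by norm_num)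
  rw [abs_le] at hyle hXle
  have hσ9 : 0.9 ≤ σ := by
    by_contra hcon
    push Not at hcon
    have h1 : σ ^ 2 ≤ 0.9 ^ 2 := pow_le_pow_left₀ hσ0 hcon.le 2
    have h2 : m ^ 2 ≤ 0.15 ^ 2 := sq_le_sq' hm15 (by linarith)
    norm_num at h1 h2
    linarith
  set ξ : ℂ := Complex.I * Complex.exp (((-μ : ℝ) : ℂ) * Complex.I) with hξ
  have hξ1 : ‖ξ‖ = 1 := by
    rw [hξ, norm_mul, Complex.norm_I, Complex.norm_exp_ofReal_mul_I, one_mul]
  have hξre : ξ.re = Real.sin μ := by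
    rw [hξ, Complex.mul_re, exp_re, exp_im, Complex.I_re, Complex.I_im, Real.sin_neg]
    ring
  have hξim : ξ.im = Real.cos μ := by
    rw [hξ, Complex.mul_im, exp_re, exp_im, Complex.I_re, Complex.I_im, Real.cos_neg]
    ring
  have hpt : ∀ s : ℝ, ((a + d * Complex.exp (((μ + s : ℝ) : ℂ) * Complex.I)) * ξ).re
      = X - d * Real.sin s ∧
      ((a + d * Complex.exp (((μ + s : ℝ) : ℂ) * Complex.I)) * ξ).im = y + d * Real.cos s := by
    intro s
    constructor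
    · rw [Complex.mul_re, hξre, hξim, Complex.add_re, Complex.add_im, Complex.re_ofReal_mul,
        Complex.im_ofReal_mul, exp_re, exp_im, Real.cos_add, Real.sin_add, hX]
      linear_combination (-d * Real.sin s) * hcs
    · rw [Complex.mul_im, hξre, hξim, Complex.add_re, Complex.add_im, Complex.re_ofReal_mul,
        Complex.im_ofReal_mul, exp_re, exp_im, Real.cos_add, Real.sin_add, hyy]
      linear_combination (d * Real.cos s) * hcs
  have hp := hpt (-γ)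
  have hq := hpt γ
  rw [Real.sin_neg, Real.cos_neg, ← hσ, ← hm, ← sub_eq_add_neg] at hp
  rw [← hσ, ← hm] at hq
  set p := a + d * Complex.exp (((μ - γ : ℝ) : ℂ) * Complex.I) with hpdef
  set q := a + d * Complex.exp (((μ + γ : ℝ) : ℂ) * Complex.I) with hqdef
  have hdpos : 0 < d := by linarith
  have hnp : ‖p‖ ^ 2 = (X + d * σ) ^ 2 + (y + d * m) ^ 2 := by
    have h1 : ‖p‖ = ‖p * ξ‖ := by rw [norm_mul, hξ1, mul_one]
    rw [h1, sq_norm'', hp.1, hp.2]
    ring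
  have hnq : ‖q‖ ^ 2 = (X - d * σ) ^ 2 + (y + d * m) ^ 2 := by
    have h1 : ‖q‖ = ‖q * ξ‖ := by rw [norm_mul, hξ1, mul_one]
    rw [h1, sq_norm'', hq.1, hq.2]
  have hdσ : 0.9962 * 0.9 ≤ d * σ := mul_le_mul hd hσ9 (by norm_num) hdpos.le
  have hPQ : ‖p‖ ^ 2 + ‖q‖ ^ 2 = 2 * ‖a‖ ^ 2 + 4 * d * (y * m) + 2 * d ^ 2 := by
    rw [hnp, hnq]
    linear_combination 2 * hXy + 2 * d ^ 2 * hσm
  refine ⟨p, hpE, q, hqE, ξ, hξ1, ?_, ?_, ?_, ?_⟩
  · rw [hp.2, hq.2]
  · rw [hp.1]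
    norm_num at hdσ
    linarith
  · rw [hq.1]
    norm_num at hdσ
    linarith
  · rw [hp.2]
    exact final hna ha hd hd1 hm15 hm8 hyle.1 hyle.2 hy15 hPQ

end Pool.Agent.Helper51.LC
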