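import Pool.Agent.Helper91.LC.Defs

/-!
# Project LC, piece LC-12a: maximiser of the penalised distance
-/

set_option autoImplicit false

namespace Pool.Agent.Helper51.LC

open Complex Metric Set Filter Topology

private theorem dot (v e : ℂ) : (v * (starRingEnd ℂ) e).re = v.re * e.re + v.im * e.im := by
  rw [Complex.mul_re, Complex.conj_re, Complex.conj_im]
  ring

private theorem sq_norm' (z : ℂ) : ‖z‖ ^ 2 = z.re ^ 2 + z.im ^ 2 := by
  rw [Complex.sq_norm, Complex.normSq_apply]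
  ring

/-- LC-12a -/
theorem geo_a {E : Set ℂ} (hE : IsClosed E) (hne : E.Nonempty) (hcov : ∀ w, infDist w E ≤ 1)
    (h0 : 0.9962 ≤ infDist 0 E) :
    ∃ (a : ℂ) (d : ℝ), ‖a‖ ≤ 0.0254 ∧ d = infDist a E ∧ 0.9962 ≤ d ∧ d ≤ 1 ∧
      ∀ v : ℂ, ‖v‖ = 1 → ∃ e : ℂ, ‖e‖ = 1 ∧ a + d * e ∈ E ∧
        -0.15 ≤ (v * (starRingEnd ℂ) e).re ∧
        -0.15 * (v * (starRingEnd ℂ) a).re ≤ ‖a‖ * (v * (starRingEnd ℂ) e).re := by
  -- the maximiser
  have hcont : Continuous fun w : ℂ => infDist w E - 0.15 * ‖w‖ :=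
    (continuous_infDist_pt E).sub (continuous_const.mul continuous_norm)
  obtain ⟨a, -, hmax⟩ := (isCompact_closedBall (0 : ℂ) 1).exists_isMaxOn
    ⟨0, mem_closedBall_self (by norm_num)⟩ hcont.continuousOn
  have hmax' : ∀ w : ℂ, infDist w E - 0.15 * ‖w‖ ≤ infDist a E - 0.15 * ‖a‖ := by
    intro w
    by_cases hw : w ∈ closedBall (0 : ℂ) 1
    · exact hmax hw
    · have h1 : 1 < ‖w‖ := by
        rw [mem_closedBall, dist_zero_right, not_le] at hw
        exact hw
      have h2 := hcov w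
      have h3 : infDist (0 : ℂ) E - 0.15 * ‖(0 : ℂ)‖ ≤ infDist a E - 0.15 * ‖a‖ :=
        hmax (mem_closedBall_self (by norm_num))
      rw [norm_zero] at h3
      linarith
  have hd1 := hcov a
  have hda := hmax' 0
  rw [norm_zero] at hda
  have hna := norm_nonneg a
  refine ⟨a, infDist a E, by linarith, rfl, by linarith, hd1, ?_⟩
  intro v hv
  set d := infDist a E with hd
  have hd0 : 0.9962 ≤ d := by linarith
  have hdpos : 0 < d := by linarith
  -- nearest points
  have hnear : ∀ n : ℕ, ∃ p ∈ E, infDist (a + ((1 / ((n : ℝ) + 1) : ℝ) : ℂ) * v) E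
      = dist (a + ((1 / ((n : ℝ) + 1) : ℝ) : ℂ) * v) p := fun n => hE.exists_infDist_eq_dist hne _
  choose p hpE hpd using hnear
  have ht0 : ∀ n : ℕ, 0 < 1 / ((n : ℝ) + 1) := fun n => Nat.one_div_pos_of_nat
  have ht1 : ∀ n : ℕ, 1 / ((n : ℝ) + 1) ≤ 1 := fun n => by
    rw [div_le_one (by positivity)]
    have : (0 : ℝ) ≤ n := Nat.cast_nonneg n
    linarith
  have hnorm_t : ∀ n : ℕ, ‖((1 / ((n : ℝ) + 1) : ℝ) : ℂ) * v‖ = 1 / ((n : ℝ) + 1) := by
    intro n
    rw [norm_mul, hv, mul_one, Complex.norm_real, Real.norm_of_nonneg (ht0 n).le]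
  have hbd : ∀ n, p n ∈ closedBall a 2 := by
    intro n
    rw [mem_closedBall]
    have h1 : dist (p n) a ≤ dist (p n) (a + ((1 / ((n : ℝ) + 1) : ℝ) : ℂ) * v)
        + dist (a + ((1 / ((n : ℝ) + 1) : ℝ) : ℂ) * v) a := dist_triangle _ _ _
    have h2 : dist (a + ((1 / ((n : ℝ) + 1) : ℝ) : ℂ) * v) a = 1 / ((n : ℝ) + 1) := by
      rw [dist_eq_norm, add_sub_cancel_left, hnorm_t]
    have h3 := hpd n
    have h4 := hcov (a + ((1 / ((n : ℝ) + 1) : ℝ) : ℂ) * v)
    rw [dist_comm] at h3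
    have h5 := ht1 n
    linarith
  obtain ⟨P, -, φ, hφ, hlim⟩ := (isCompact_closedBall a 2).tendsto_subseq hbd
  have hPE : P ∈ E := hE.mem_of_tendsto hlim (Eventually.of_forall fun n => hpE (φ n))
  -- the limits
  have htlim : Tendsto (fun n => 1 / (((φ n : ℕ) : ℝ) + 1)) atTop (𝓝 0) :=
    (tendsto_one_div_add_atTop_nhds_zero_nat (𝕜 := ℝ)).comp hφ.tendsto_atTop
  have htlimC : Tendsto (fun n => ((1 / (((φ n : ℕ) : ℝ) + 1) : ℝ) : ℂ) * v) atTop (𝓝 0) := by
    have h1 := (Complex.continuous_ofReal.tendsto 0).comp htlim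
    have h2 := h1.mul_const v
    rw [Complex.ofReal_zero, zero_mul] at h2
    exact h2
  have hwlim : Tendsto (fun n => a + ((1 / (((φ n : ℕ) : ℝ) + 1) : ℝ) : ℂ) * v) atTop (𝓝 a) := by
    have := htlimC.const_add a
    rwa [add_zero] at this
  have hPd : dist a P = d := by
    have h1 : Tendsto (fun n => dist (a + ((1 / (((φ n : ℕ) : ℝ) + 1) : ℝ) : ℂ) * v) (p (φ n)))
        atTop (𝓝 (dist a P)) := hwlim.dist hlim
    have h2 : Tendsto (fun n => infDist (a + ((1 / (((φ n : ℕ) : ℝ) + 1) : ℝ) : ℂ) * v) E)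
        atTop (𝓝 (infDist a E)) := ((continuous_infDist_pt E).tendsto a).comp hwlim
    refine tendsto_nhds_unique h1 (h2.congr fun n => ?_)
    exact hpd (φ n)
  have hnP : ‖P - a‖ = d := by rw [← dist_eq_norm, dist_comm]; exact hPd
  -- the inequalities for the points `p n`
  have key : ∀ n : ℕ, -0.15 * d ≤ v.re * (p n - a).re + v.im * (p n - a).im ∧
      -0.15 * d * (v.re * a.re + v.im * a.im + 1 / ((n : ℝ) + 1) / 2) ≤
        ‖a‖ * (v.re * (p n - a).re + v.im * (p n - a).im) := by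
    intro n
    set t := 1 / ((n : ℝ) + 1) with ht
    have htp : 0 < t := ht0 n
    have hpn : d ≤ ‖p n - a‖ := by
      rw [← dist_eq_norm, dist_comm]
      exact infDist_le_dist_of_mem (hpE n)
    have h1 : infDist (a + (t : ℂ) * v) E = ‖a + (t : ℂ) * v - p n‖ := by
      rw [hpd n, dist_eq_norm]
    have h2 := hmax' (a + (t : ℂ) * v)
    rw [h1] at h2
    set D := ‖a + (t : ℂ) * v - p n‖ with hD
    set N := ‖a + (t : ℂ) * v‖ with hN
    have hD0 : 0 ≤ D := norm_nonneg _
    have hN0 : 0 ≤ N := norm_nonneg _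
    have hNt : N ≤ ‖a‖ + t := by
      have := norm_add_le a ((t : ℂ) * v)
      rw [hnorm_t n] at this
      exact this
    have hNt' : ‖a‖ - t ≤ N := by
      have h3 := norm_sub_norm_le a (-((t : ℂ) * v))
      rw [norm_neg, hnorm_t n, sub_neg_eq_add] at h3
      exact h3
    -- squares
    have hv2 : v.re ^ 2 + v.im ^ 2 = 1 := by
      have := sq_norm' v
      rw [hv] at this
      linarith
    have hDsq : D ^ 2 = ‖p n - a‖ ^ 2 - 2 * t * (v.re * (p n - a).re + v.im * (p n - a).im)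
        + t ^ 2 := by
      rw [hD, sq_norm', sq_norm']
      simp only [Complex.sub_re, Complex.sub_im, Complex.add_re, Complex.add_im, Complex.mul_re,
        Complex.mul_im, Complex.ofReal_re, Complex.ofReal_im, zero_mul, sub_zero, add_zero]
      linear_combination t ^ 2 * hv2
    have hNsq : N ^ 2 = ‖a‖ ^ 2 + 2 * t * (v.re * a.re + v.im * a.im) + t ^ 2 := by
      rw [hN, sq_norm', sq_norm']
      simp only [Complex.add_re, Complex.add_im, Complex.mul_re,
        Complex.mul_im, Complex.ofReal_re, Complex.ofReal_im, zero_mul, sub_zero, add_zero]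
      linear_combination t ^ 2 * hv2
    set Q := v.re * (p n - a).re + v.im * (p n - a).im with hQ
    set B := v.re * a.re + v.im * a.im with hB
    set δ := N - ‖a‖ with hδ
    have hδ1 : δ ≤ t := by linarith
    have hδ2 : -t ≤ δ := by linarith
    have hDle : D ≤ d + 0.15 * δ := by rw [hδ]; linarith
    have hDD : D ^ 2 ≤ (d + 0.15 * δ) ^ 2 := by
      exact pow_le_pow_left₀ hD0 hDle 2
    have hpp : d ^ 2 ≤ ‖p n - a‖ ^ 2 := pow_le_pow_left₀ hdpos.le hpn 2
    have hδδ : δ ^ 2 ≤ t ^ 2 := by nlinarith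
    have hmain : -(0.15 * d * δ) ≤ t * Q := by nlinarith
    have hδa : 2 * ‖a‖ * δ ≤ 2 * t * B + t ^ 2 := by
      rw [hδ]
      nlinarith [sq_nonneg (N - ‖a‖)]
    constructor
    · have h3 : t * (-0.15 * d) ≤ t * Q := by nlinarith
      exact le_of_mul_le_mul_left h3 htp
    · have h3 : t * (-0.15 * d * (B + t / 2)) ≤ t * (‖a‖ * Q) := by
        have h4 : ‖a‖ * (-(0.15 * d * δ)) ≤ ‖a‖ * (t * Q) :=
          mul_le_mul_of_nonneg_left hmain hna
        have h5 : 0.15 * d * (2 * ‖a‖ * δ) ≤ 0.15 * d * (2 * t * B + t ^ 2) :=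
          mul_le_mul_of_nonneg_left hδa (by positivity)
        nlinarith
      exact le_of_mul_le_mul_left h3 htp
  -- pass to the limit
  have hQlim : Tendsto (fun n => v.re * (p (φ n) - a).re + v.im * (p (φ n) - a).im) atTop
      (𝓝 (v.re * (P - a).re + v.im * (P - a).im)) := by
    have h1 : Tendsto (fun n => p (φ n) - a) atTop (𝓝 (P - a)) := hlim.sub_const a
    exact (((Complex.continuous_re.tendsto _).comp h1).const_mul _).add
      (((Complex.continuous_im.tendsto _).comp h1).const_mul _)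
  have hfin1 : -0.15 * d ≤ v.re * (P - a).re + v.im * (P - a).im :=
    ge_of_tendsto' hQlim fun n => (key (φ n)).1
  have hfin2 : -0.15 * d * (v.re * a.re + v.im * a.im) ≤
      ‖a‖ * (v.re * (P - a).re + v.im * (P - a).im) := by
    have h1 : Tendsto (fun n => -0.15 * d * (v.re * a.re + v.im * a.im
        + 1 / (((φ n : ℕ) : ℝ) + 1) / 2)) atTop
        (𝓝 (-0.15 * d * (v.re * a.re + v.im * a.im + 0 / 2))) :=
      ((htlim.div_const 2).const_add _).const_mul _
    rw [zero_div, add_zero] at h1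
    exact le_of_tendsto_of_tendsto' h1 (hQlim.const_mul _) fun n => (key (φ n)).2
  have hdC : (d : ℂ) ≠ 0 := by
    rw [Ne, Complex.ofReal_eq_zero]
    exact hdpos.ne'
  refine ⟨(P - a) / d, ?_, ?_, ?_, ?_⟩
  · rw [norm_div, hnP, Complex.norm_real, Real.norm_of_nonneg hdpos.le, div_self hdpos.ne']
  · have : a + d * ((P - a) / d) = P := by
      field_simp
      ring
    rw [this]
    exact hPE
  · rw [dot, Complex.div_ofReal_re, Complex.div_ofReal_im]
    have h1 : v.re * ((P - a).re / d) + v.im * ((P - a).im / d)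
        = (v.re * (P - a).re + v.im * (P - a).im) / d := by ring
    rw [h1, le_div_iff₀ hdpos]
    linarith
  · rw [dot, dot, Complex.div_ofReal_re, Complex.div_ofReal_im]
    have h1 : ‖a‖ * (v.re * ((P - a).re / d) + v.im * ((P - a).im / d))
        = ‖a‖ * (v.re * (P - a).re + v.im * (P - a).im) / d := by ring
    rw [h1, le_div_iff₀ hdpos]
    linarith

end Pool.Agent.Helper51.LC
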